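import Pool.Agent.Helper55.CF.Goals

/-! Packet TRANSF: from functions on `ℂ⁵` to functions on `ℂ × ℂ × ℂ³`. -/

set_option autoImplicit false

open MeasureTheory Complex
open scoped ContDiff ComplexConjugate

noncomputable section
namespace Pool.Agent.Helper69.CF

open CF55

/-- the coordinates -/
def gl : X5 ≃ₗ[ℝ] E where
  toFun v := (v 0, v 1, fun i : Fin 3 => v i.succ.succ)
  invFun q := Fin.cons q.1 (Fin.cons q.2.1 q.2.2)
  map_add' v w := rfl
  map_smul' c v := rfl
  left_inv v := by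
    funext i
    refine Fin.cases rfl (fun i => ?_) i
    refine Fin.cases rfl (fun i => ?_) i
    rfl
  right_inv q := rfl

/-- the coordinates, continuous version -/
def gc : X5 ≃L[ℝ] E where
  toLinearEquiv := gl
  continuous_toFun := by
    show Continuous (fun v : X5 => ((v 0, v 1, fun i : Fin 3 => v i.succ.succ) : E))
    fun_prop
  continuous_invFun := by
    exact LinearMap.continuous_of_finiteDimensional (gl.symm : E →ₗ[ℝ] X5)

theorem gc_apply (v : X5) : gc v = (v 0, v 1, fun i : Fin 3 => v i.succ.succ) := rfl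

theorem cons_gc (v : X5) :
    (Fin.cons (gc v).1 (Fin.cons (gc v).2.1 (gc v).2.2) : X5) = v := gl.left_inv v

theorem norm_le (v : X5) : ‖v‖ ≤ ‖gc v‖ := by
  rw [pi_norm_le_iff_of_nonneg (norm_nonneg _)]
  intro i
  have h0 : ‖v 0‖ ≤ ‖gc v‖ := norm_fst_le (gc v)
  have h1 : ‖v 1‖ ≤ ‖gc v‖ := (norm_fst_le (gc v).2).trans (norm_snd_le (gc v))
  have h2 : ∀ i : Fin 3, ‖v i.succ.succ‖ ≤ ‖gc v‖ := fun i =>
    (norm_le_pi_norm (gc v).2.2 i).trans ((norm_snd_le (gc v).2).trans (norm_snd_le (gc v)))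
  refine Fin.cases h0 (fun i => ?_) i
  refine Fin.cases h1 (fun i => ?_) i
  exact h2 i

theorem mp : MeasurePreserving (gc : X5 → E) := by
  have h1 := volume_preserving_piFinSuccAbove (fun _ : Fin 5 => ℂ) 0
  have h2 := volume_preserving_piFinSuccAbove (fun _ : Fin 4 => ℂ) 0
  have h3 : MeasurePreserving (Prod.map (id : ℂ → ℂ)
      (MeasurableEquiv.piFinSuccAbove (fun _ : Fin 4 => ℂ) 0)) :=
    (MeasurePreserving.id (volume : Measure ℂ)).prod h2
  have h4 := h3.comp h1
  exact h4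

theorem stmtTRANSF : G_TRANSF := by
  rintro f ⟨r, hr, h⟩
  refine ⟨r, hr, fun ψ hψ hψc hψs => ?_⟩
  have hemb : MeasurableEmbedding (gc : X5 → E) :=
    gc.toHomeomorph.measurableEmbedding
  obtain ⟨C, k, hC⟩ := h (fun v => ψ (gc v)) (hψ.comp gc.contDiff)
    (hψc.comp_homeomorph gc.toHomeomorph) (by
      intro v hv
      have hv' : gc v ∈ tsupport ψ := by
        have := tsupport_comp_eq_preimage ψ gc.toHomeomorph
        rw [show (fun v => ψ (gc v)) = ψ ∘ gc.toHomeomorph from rfl, this] at hv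
        exact hv
      have h1 := hψs hv'
      rw [Metric.mem_ball, dist_zero_right] at h1 ⊢
      exact (norm_le v).trans_lt h1)
  refine ⟨C, k, fun R hR => ?_⟩
  have h1 := hC R hR
  have e1 := mp.integral_comp hemb (fun q : E =>
    Real.exp (-(R * ‖f (Fin.cons q.1 (Fin.cons q.2.1 q.2.2))‖ ^ 2)) * ψ q)
  have e2 := mp.integral_comp hemb (fun q : E =>
    (R * ‖f (Fin.cons q.1 (Fin.cons q.2.1 q.2.2))‖ ^ 2 - 1) *
      Real.exp (-(R * ‖f (Fin.cons q.1 (Fin.cons q.2.1 q.2.2))‖ ^ 2)) * ψ q)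
  simp only [cons_gc] at e1 e2
  rw [← e1, ← e2]
  exact h1

end Pool.Agent.Helper69.CF
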